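import Pool.Agent.Lib.MP_d5a392_an.Meas

/-!
# A compact space with weakly Baire measurable supremum norm and non-separable dual ball

In ZFC there is a compact Hausdorff space `L` such that the supremum norm on `C(L)` is measurable
for the Baire `σ`-algebra of the weak topology, while the closed unit ball of `C(L)^*` is not
weak* separable.
-/

namespace Pool.Agent.Results.MP_d5a392_an.NormMeasurable

/-- The Baire `σ`-algebra `Ba(X, w)` of a real normed space `X` with its weak topology: the smallest
`σ`-algebra on `X` for which every weakly continuous function `X → ℝ` is measurable. -/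
@[reducible] noncomputable def weakBaire (X : Type*) [NormedAddCommGroup X] [NormedSpace ℝ X] :
    MeasurableSpace X :=
  ⨆ f : {f : WeakSpace ℝ X → ℝ // Continuous f},
    MeasurableSpace.comap (fun x : X => f.1 (toWeakSpace ℝ X x)) (borel ℝ)

/-- The closed unit ball of the dual `X^*`, as a subset of `X^*` with its weak* topology. -/
def dualBall (X : Type*) [NormedAddCommGroup X] [NormedSpace ℝ X] : Set (WeakDual ℝ X) :=
  {φ | ‖WeakDual.toStrongDual φ‖ ≤ 1}

theorem result : ∃ (L : Type) (_ : TopologicalSpace L) (_ : CompactSpace L) (_ : T2Space L),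
    @Measurable C(L, ℝ) ℝ (weakBaire C(L, ℝ)) (borel ℝ) (fun g : C(L, ℝ) => ‖g‖) ∧
      ¬ ∃ D : Set (WeakDual ℝ C(L, ℝ)), D.Countable ∧ D ⊆ dualBall C(L, ℝ) ∧
        dualBall C(L, ℝ) ⊆ closure D :=
  ⟨Pool.Agent.Lib.MP_d5a392_an.L Pool.Agent.Lib.MP_d5a392_an.cod, inferInstance, inferInstance,
    inferInstance, Pool.Agent.Lib.MP_d5a392_an.measurable_norm_C _,
    Pool.Agent.Lib.MP_d5a392_an.nonsep⟩

end Pool.Agent.Results.MP_d5a392_an.NormMeasurable
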